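import Pool.Agent.MLat.L

/-!
# The automorphisms of the lattice (MP_be50aa_co)

The automorphisms of `L t₁ t₂` are given by the permutations of `Ω` which commute with `t₁`, `t₂`.
-/

set_option autoImplicit false

namespace Pool.Agent.MLat

open M

variable {Ω : Type} {t₁ t₂ : Equiv.Perm Ω}

/-- The number of join irreducible elements below a join irreducible element. -/
def wt : E Ω → ℕ
  | Sum.inl (.a, _) => 1
  | Sum.inl (.b, _) => 2
  | Sum.inl (.c, _) => 4
  | Sum.inl (.d, _) => 5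
  | Sum.inl (.e, _) => 6
  | Sum.inr j => (j : ℕ) + 1

private theorem fin_cases' (k : Fin 3) : k = 0 ∨ k = 1 ∨ k = 2 := by
  fin_cases k <;> simp

theorem ncard_has (e : E Ω) : {e' : E Ω | has (Jx t₁ t₂ e) e'}.ncard = wt e := by
  classical
  rcases e with ⟨t, i⟩ | j
  · cases t
    · have h : {e' : E Ω | has (Jx t₁ t₂ (Sum.inl (.a, i))) e'} =
          (({Sum.inl (.a, i)} : Finset (E Ω)) : Set (E Ω)) := by
        ext e'
        rcases e' with ⟨t, j⟩ | k
        · cases t <;> simp [has, Jx]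
        · rcases fin_cases' k with rfl | rfl | rfl <;> simp [has, Jx]
      rw [h, Set.ncard_coe_finset]
      rfl
    · have h : {e' : E Ω | has (Jx t₁ t₂ (Sum.inl (.b, i))) e'} =
          (({Sum.inl (.b, i), Sum.inr 0} : Finset (E Ω)) : Set (E Ω)) := by
        ext e'
        rcases e' with ⟨t, j⟩ | k
        · cases t <;> simp [has, Jx]
        · rcases fin_cases' k with rfl | rfl | rfl <;> simp [has, Jx]
      rw [h, Set.ncard_coe_finset]
      simp [wt]
    · have h : {e' : E Ω | has (Jx t₁ t₂ (Sum.inl (.c, i))) e'} =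
          (({Sum.inl (.a, i), Sum.inl (.b, i), Sum.inl (.c, i), Sum.inr 0} :
            Finset (E Ω)) : Set (E Ω)) := by
        ext e'
        rcases e' with ⟨t, j⟩ | k
        · cases t <;> simp [has, Jx]
        · rcases fin_cases' k with rfl | rfl | rfl <;> simp [has, Jx]
      rw [h, Set.ncard_coe_finset]
      simp [wt]
    · have h : {e' : E Ω | has (Jx t₁ t₂ (Sum.inl (.d, i))) e'} =
          (({Sum.inl (.a, i), Sum.inl (.b, t₁.symm i), Sum.inl (.d, i), Sum.inr 0, Sum.inr 1} :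
            Finset (E Ω)) : Set (E Ω)) := by
        ext e'
        rcases e' with ⟨t, j⟩ | k
        · cases t <;> simp [has, Jx]
        · rcases fin_cases' k with rfl | rfl | rfl <;> simp [has, Jx]
      rw [h, Set.ncard_coe_finset]
      simp [wt]
    · have h : {e' : E Ω | has (Jx t₁ t₂ (Sum.inl (.e, i))) e'} =
          (({Sum.inl (.a, i), Sum.inl (.b, t₂.symm i), Sum.inl (.e, i), Sum.inr 0, Sum.inr 1,
            Sum.inr 2} : Finset (E Ω)) : Set (E Ω)) := by
        ext e'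
        rcases e' with ⟨t, j⟩ | k
        · cases t <;> simp [has, Jx]
        · rcases fin_cases' k with rfl | rfl | rfl <;> simp [has, Jx]
      rw [h, Set.ncard_coe_finset]
      simp [wt]
  · rcases fin_cases' j with rfl | rfl | rfl
    · have h : {e' : E Ω | has (Jx t₁ t₂ (Sum.inr 0)) e'} =
          (({Sum.inr 0} : Finset (E Ω)) : Set (E Ω)) := by
        ext e'
        rcases e' with ⟨t, j⟩ | k
        · cases t <;> simp [has, Jx]
        · rcases fin_cases' k with rfl | rfl | rfl <;> simp [has, Jx]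
      rw [h, Set.ncard_coe_finset]
      simp [wt]
    · have h : {e' : E Ω | has (Jx t₁ t₂ (Sum.inr 1)) e'} =
          (({Sum.inr 0, Sum.inr 1} : Finset (E Ω)) : Set (E Ω)) := by
        ext e'
        rcases e' with ⟨t, j⟩ | k
        · cases t <;> simp [has, Jx]
        · rcases fin_cases' k with rfl | rfl | rfl <;> simp [has, Jx]
      rw [h, Set.ncard_coe_finset]
      simp [wt]
    · have h : {e' : E Ω | has (Jx t₁ t₂ (Sum.inr 2)) e'} =
          (({Sum.inr 0, Sum.inr 1, Sum.inr 2} : Finset (E Ω)) : Set (E Ω)) := by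
        ext e'
        rcases e' with ⟨t, j⟩ | k
        · cases t <;> simp [has, Jx]
        · rcases fin_cases' k with rfl | rfl | rfl <;> simp [has, Jx]
      rw [h, Set.ncard_coe_finset]
      simp [wt]

/-- An automorphism permutes the join irreducible elements. -/
theorem exists_perm [Finite Ω] [Nontrivial Ω] (φ : L t₁ t₂ ≃o L t₁ t₂) :
    ∃ ψ : Equiv.Perm (E Ω), ∀ e, φ (J t₁ t₂ e) = J t₁ t₂ (ψ e) := by
  have h1 : ∀ e, SupIrred (φ (J t₁ t₂ e)) := by
    intro e
    have h := supIrred_J (t₁ := t₁) (t₂ := t₂) e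
    constructor
    · intro h2
      apply h.1
      intro y hy
      have h3 := h2 (φ.monotone hy)
      exact φ.le_iff_le.1 h3
    · intro x y hxy
      have h2 : φ.symm x ⊔ φ.symm y = J t₁ t₂ e := by
        rw [← φ.symm.map_sup, hxy, φ.symm_apply_apply]
      rcases h.2 h2 with h3 | h3
      · left
        rw [← h3, φ.apply_symm_apply]
      · right
        rw [← h3, φ.apply_symm_apply]
  choose f hf using fun e => exists_J (h1 e)
  have hinj : Function.Injective f := by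
    intro e e' h
    apply J_injective (t₁ := t₁) (t₂ := t₂)
    apply φ.injective
    rw [← hf, ← hf, h]
  exact ⟨Equiv.ofBijective f (Finite.injective_iff_bijective.1 hinj), fun e => (hf e).symm⟩

section perm

variable {φ : L t₁ t₂ ≃o L t₁ t₂} {ψ : Equiv.Perm (E Ω)}

/-- The permutation respects the order. -/
theorem has_perm (h : ∀ e, φ (J t₁ t₂ e) = J t₁ t₂ (ψ e)) (e e' : E Ω) :
    has (Jx t₁ t₂ (ψ e)) (ψ e') ↔ has (Jx t₁ t₂ e) e' := by
  have h1 : J t₁ t₂ (ψ e') ≤ J t₁ t₂ (ψ e) ↔ J t₁ t₂ e' ≤ J t₁ t₂ e := by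
    rw [← h, ← h]
    exact φ.le_iff_le
  rwa [J_le, J_le] at h1

theorem wt_perm (h : ∀ e, φ (J t₁ t₂ e) = J t₁ t₂ (ψ e)) (e : E Ω) : wt (ψ e) = wt e := by
  rw [← ncard_has (t₁ := t₁) (t₂ := t₂), ← ncard_has (t₁ := t₁) (t₂ := t₂)]
  have h1 : {e' : E Ω | has (Jx t₁ t₂ (ψ e)) e'} = ψ '' {e' : E Ω | has (Jx t₁ t₂ e) e'} := by
    ext e'
    constructor
    · intro h2
      refine ⟨ψ.symm e', ?_, ψ.apply_symm_apply e'⟩
      have h3 := has_perm h e (ψ.symm e')
      rw [ψ.apply_symm_apply] at h3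
      exact h3.1 h2
    · rintro ⟨e'', h2, rfl⟩
      exact (has_perm h e e'').2 h2
  rw [h1, Set.ncard_image_of_injective _ ψ.injective]

theorem perm_two (h : ∀ e, φ (J t₁ t₂ e) = J t₁ t₂ (ψ e)) : ψ (Sum.inr 2) = Sum.inr 2 := by
  have h1 := wt_perm h (Sum.inr 2)
  rcases h2 : ψ (Sum.inr 2) with ⟨t, i⟩ | j
  · rw [h2] at h1
    cases t <;> simp [wt] at h1
  · rw [h2] at h1
    rcases fin_cases' j with rfl | rfl | rfl
    · simp [wt] at h1
    · simp [wt] at h1
    · rfl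

theorem perm_inr (h : ∀ e, φ (J t₁ t₂ e) = J t₁ t₂ (ψ e)) (j : Fin 3) :
    ψ (Sum.inr j) = Sum.inr j := by
  have h1 := wt_perm h (Sum.inr j)
  have h3 := (has_perm h (Sum.inr 2) (Sum.inr j)).2 (by
    show j.succ ≤ Fin.succ 2
    rcases fin_cases' j with rfl | rfl | rfl <;> decide)
  rw [perm_two h] at h3
  rcases h2 : ψ (Sum.inr j) with ⟨t, i⟩ | k
  · rw [h2] at h3
    exact absurd h3 (pt_le_bot i)
  · rw [h2] at h1
    have h4 : (k : ℕ) + 1 = (j : ℕ) + 1 := h1
    rw [Fin.ext (show (k : ℕ) = j by omega)]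

theorem perm_inl (h : ∀ e, φ (J t₁ t₂ e) = J t₁ t₂ (ψ e)) (t : Cls) (i : Ω) :
    ∃ j, ψ (Sum.inl (t, i)) = Sum.inl (t, j) := by
  have h1 := wt_perm h (Sum.inl (t, i))
  rcases h2 : ψ (Sum.inl (t, i)) with ⟨t', j⟩ | k
  · rw [h2] at h1
    refine ⟨j, ?_⟩
    cases t <;> cases t' <;> simp [wt] at h1 <;> rfl
  · rw [← perm_inr h k] at h2
    exact absurd (ψ.injective h2) (by simp)

/-- The permutation is given by a permutation of the labels which commutes with `t₁`, `t₂`. -/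
theorem exists_label (h : ∀ e, φ (J t₁ t₂ e) = J t₁ t₂ (ψ e)) :
    ∃ π : Ω → Ω, (∀ i, π (t₁ i) = t₁ (π i)) ∧ (∀ i, π (t₂ i) = t₂ (π i)) ∧
      ∀ t i, ψ (Sum.inl (t, i)) = Sum.inl (t, π i) := by
  choose f hf using fun t i => perm_inl h t i
  have hca : ∀ i, f .a i = f .c i := by
    intro i
    have h1 := (has_perm h (Sum.inl (.c, i)) (Sum.inl (.a, i))).2 (by simp [has, Jx])
    rw [hf, hf] at h1
    exact h1
  have hcb : ∀ i, f .b i = f .c i := by
    intro i
    have h1 := (has_perm h (Sum.inl (.c, i)) (Sum.inl (.b, i))).2 (by simp [has, Jx])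
    rw [hf, hf] at h1
    exact h1
  have hda : ∀ i, f .a i = f .d i := by
    intro i
    have h1 := (has_perm h (Sum.inl (.d, i)) (Sum.inl (.a, i))).2 (by simp [has, Jx])
    rw [hf, hf] at h1
    exact h1
  have hdb : ∀ i, f .b (t₁.symm i) = t₁.symm (f .d i) := by
    intro i
    have h1 := (has_perm h (Sum.inl (.d, i)) (Sum.inl (.b, t₁.symm i))).2 (by simp [has, Jx])
    rw [hf, hf] at h1
    exact h1
  have hea : ∀ i, f .a i = f .e i := by
    intro i
    have h1 := (has_perm h (Sum.inl (.e, i)) (Sum.inl (.a, i))).2 (by simp [has, Jx])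
    rw [hf, hf] at h1
    exact h1
  have heb : ∀ i, f .b (t₂.symm i) = t₂.symm (f .e i) := by
    intro i
    have h1 := (has_perm h (Sum.inl (.e, i)) (Sum.inl (.b, t₂.symm i))).2 (by simp [has, Jx])
    rw [hf, hf] at h1
    exact h1
  refine ⟨f .a, fun i => ?_, fun i => ?_, fun t i => ?_⟩
  · have h1 := hdb (t₁ i)
    rw [t₁.symm_apply_apply, hcb, ← hca, ← hda] at h1
    rw [h1, t₁.apply_symm_apply]
  · have h1 := heb (t₂ i)
    rw [t₂.symm_apply_apply, hcb, ← hca, ← hea] at h1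
    rw [h1, t₂.apply_symm_apply]
  · rw [hf]
    cases t
    · rfl
    · rw [hcb, ← hca]
    · rw [← hca]
    · rw [← hda]
    · rw [← hea]

end perm

/-! ### The action of the commuting permutations -/

/-- The map of the ambient product. -/
def act (σ : Equiv.Perm Ω) (x : X Ω) : X Ω := (fun t => map σ (x.1 t), x.2)

theorem act_good {σ : Equiv.Perm Ω} (h₁ : ∀ i, σ (t₁ i) = t₁ (σ i))
    (h₂ : ∀ i, σ (t₂ i) = t₂ (σ i)) {x : X Ω} (hx : Good t₁ t₂ x) : Good t₁ t₂ (act σ x) where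
  ca := map_le_map.2 hx.ca
  cb := map_le_map.2 hx.cb
  da := map_le_map.2 hx.da
  db := by
    show map σ (x.1 .d) ≤ map t₁ (map σ (x.1 .b))
    have h : t₁ * σ = σ * t₁ := Equiv.ext fun i => (h₁ i).symm
    rw [map_map, h, ← map_map]
    exact map_le_map.2 hx.db
  ea := map_le_map.2 hx.ea
  eb := by
    show map σ (x.1 .e) ≤ map t₂ (map σ (x.1 .b))
    have h : t₂ * σ = σ * t₂ := Equiv.ext fun i => (h₂ i).symm
    rw [map_map, h, ← map_map]
    exact map_le_map.2 hx.eb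
  sb := by
    refine hx.sb.imp_left fun h => ?_
    show map σ (x.1 .b) = bot
    rw [h]
    rfl
  sd := by
    refine hx.sd.imp_left fun h => ?_
    show map σ (x.1 .d) = bot
    rw [h]
    rfl
  se := by
    refine hx.se.imp_left fun h => ?_
    show map σ (x.1 .e) = bot
    rw [h]
    rfl

private theorem comm_inv {σ t : Equiv.Perm Ω} (h : ∀ i, σ (t i) = t (σ i)) (i : Ω) :
    σ⁻¹ (t i) = t (σ⁻¹ i) := by
  rw [Equiv.Perm.inv_eq_iff_eq, h]
  simp

private theorem act_act (σ τ : Equiv.Perm Ω) (x : X Ω) : act σ (act τ x) = act (σ * τ) x := by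
  unfold act
  simp [map_map]

private theorem act_one (x : X Ω) : act 1 x = x := by
  unfold act
  simp [map_one]

/-- The automorphism given by a commuting permutation. -/
def actIso (σ : Equiv.Perm Ω) (h₁ : ∀ i, σ (t₁ i) = t₁ (σ i)) (h₂ : ∀ i, σ (t₂ i) = t₂ (σ i)) :
    L t₁ t₂ ≃o L t₁ t₂ where
  toFun x := ⟨act σ x.1, act_good h₁ h₂ x.2⟩
  invFun x := ⟨act σ⁻¹ x.1, act_good (comm_inv h₁) (comm_inv h₂) x.2⟩
  left_inv x := Subtype.ext (by
    show act σ⁻¹ (act σ x.1) = x.1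
    rw [act_act, inv_mul_cancel, act_one])
  right_inv x := Subtype.ext (by
    show act σ (act σ⁻¹ x.1) = x.1
    rw [act_act, mul_inv_cancel, act_one])
  map_rel_iff' {x y} := by
    show act σ x.1 ≤ act σ y.1 ↔ x.1 ≤ y.1
    constructor
    · intro h
      exact ⟨fun t => map_le_map.1 (h.1 t), h.2⟩
    · intro h
      exact ⟨fun t => map_le_map.2 (h.1 t), h.2⟩

theorem actIso_J {σ : Equiv.Perm Ω} (h₁ : ∀ i, σ (t₁ i) = t₁ (σ i))
    (h₂ : ∀ i, σ (t₂ i) = t₂ (σ i)) (t : Cls) (i : Ω) :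
    actIso σ h₁ h₂ (J t₁ t₂ (Sum.inl (t, i))) = J t₁ t₂ (Sum.inl (t, σ i)) := by
  apply Subtype.ext
  show act σ (Jx t₁ t₂ (Sum.inl (t, i))) = Jx t₁ t₂ (Sum.inl (t, σ i))
  have e₁ : σ (t₁.symm i) = t₁.symm (σ i) := by
    rw [Equiv.eq_symm_apply, ← h₁, t₁.apply_symm_apply]
  have e₂ : σ (t₂.symm i) = t₂.symm (σ i) := by
    rw [Equiv.eq_symm_apply, ← h₂, t₂.apply_symm_apply]
  unfold act
  refine Prod.ext ?_ ?_
  · funext t'
    cases t <;> cases t' <;> simp [Jx, e₁, e₂]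
  · cases t <;> rfl

theorem actIso_inr {σ : Equiv.Perm Ω} (h₁ : ∀ i, σ (t₁ i) = t₁ (σ i))
    (h₂ : ∀ i, σ (t₂ i) = t₂ (σ i)) (j : Fin 3) :
    actIso σ h₁ h₂ (J t₁ t₂ (Sum.inr j)) = J t₁ t₂ (Sum.inr j) := by
  apply Subtype.ext
  rfl

/-- Two automorphisms which agree on the join irreducible elements are equal. -/
theorem iso_ext [Finite Ω] [Nontrivial Ω] {φ φ' : L t₁ t₂ ≃o L t₁ t₂}
    (h : ∀ e, φ (J t₁ t₂ e) = φ' (J t₁ t₂ e)) : φ = φ' := by
  have key : ∀ φ φ' : L t₁ t₂ ≃o L t₁ t₂, (∀ e, φ (J t₁ t₂ e) = φ' (J t₁ t₂ e)) →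
      ∀ x, φ x ≤ φ' x := by
    intro φ φ' h x
    obtain ⟨ψ, hψ⟩ := exists_perm φ
    refine le_of_J fun e he => ?_
    have h1 : J t₁ t₂ e = φ (J t₁ t₂ (ψ.symm e)) := by
      rw [hψ, ψ.apply_symm_apply]
    rw [h1] at he ⊢
    rw [h]
    exact φ'.monotone (φ.le_iff_le.1 he)
  refine OrderIso.ext (funext fun x => le_antisymm (key φ φ' h x) (key φ' φ (fun e => (h e).symm) x))

end Pool.Agent.MLat
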