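import Pool.Agent.MLat.A

/-!
# Every finite group (MP_be50aa_co)

For a finite group `G` let `Ω = G × ZMod n`, `n = |G|`, `t₁ (g, k) = (g, k + 1)` and
`t₂ (g, k) = (g * θ k, k)` with a bijection `θ : ZMod n ≃ G`, `θ 0 = 1`. The maps which commute with
`t₁` and `t₂` are the left multiplications of the first coordinate.
-/

set_option autoImplicit false

namespace Pool.Agent.MLat

variable {G : Type} [Group G] {n : ℕ}

/-- The first permutation. -/
def tOne (G : Type) (n : ℕ) : Equiv.Perm (G × ZMod n) where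
  toFun x := (x.1, x.2 + 1)
  invFun x := (x.1, x.2 - 1)
  left_inv x := by simp
  right_inv x := by simp

/-- The second permutation. -/
def tTwo (θ : ZMod n ≃ G) : Equiv.Perm (G × ZMod n) where
  toFun x := (x.1 * θ x.2, x.2)
  invFun x := (x.1 * (θ x.2)⁻¹, x.2)
  left_inv x := by simp
  right_inv x := by simp

/-- The left multiplication by `h`. -/
def lam (n : ℕ) (h : G) : Equiv.Perm (G × ZMod n) where
  toFun x := (h * x.1, x.2)
  invFun x := (h⁻¹ * x.1, x.2)
  left_inv x := by simp
  right_inv x := by simp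

theorem lam_one_comm (h : G) (x : G × ZMod n) : lam n h (tOne G n x) = tOne G n (lam n h x) := rfl

theorem lam_two_comm (θ : ZMod n ≃ G) (h : G) (x : G × ZMod n) :
    lam n h (tTwo θ x) = tTwo θ (lam n h x) := by
  show (h * (x.1 * θ x.2), x.2) = (h * x.1 * θ x.2, x.2)
  rw [mul_assoc]

/-- The centralizer. -/
theorem exists_lam [NeZero n] {θ : ZMod n ≃ G} (hθ : θ 0 = 1) {π : G × ZMod n → G × ZMod n}
    (h₁ : ∀ x, π (tOne G n x) = tOne G n (π x)) (h₂ : ∀ x, π (tTwo θ x) = tTwo θ (π x)) :
    ∃ h : G, ∀ x, π x = lam n h x := by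
  -- translations of the second coordinate
  have hN : ∀ (m : ℕ) (g : G) (k : ZMod n), π (g, k + m) = ((π (g, k)).1, (π (g, k)).2 + m) := by
    intro m g k
    induction m with
    | zero => simp
    | succ m ih =>
      have h := h₁ (g, k + m)
      have h3 : tOne G n (g, k + m) = (g, k + ((m + 1 : ℕ) : ZMod n)) := by
        show (g, k + (m : ZMod n) + 1) = _
        push_cast
        rw [add_assoc]
      rw [h3, ih] at h
      rw [h]
      show ((π (g, k)).1, (π (g, k)).2 + (m : ZMod n) + 1) = _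
      push_cast
      rw [add_assoc]
  have hZ : ∀ (m : ZMod n) (g : G) (k : ZMod n),
      π (g, k + m) = ((π (g, k)).1, (π (g, k)).2 + m) := by
    intro m g k
    have h := hN m.val g k
    rwa [ZMod.natCast_zmod_val] at h
  -- the fixed points of `t₂`
  have h0 : (π (1, 0)).2 = 0 := by
    have h := h₂ (1, 0)
    have h3 : tTwo θ (1, 0) = ((1 : G), (0 : ZMod n)) := by
      show ((1 : G) * θ 0, (0 : ZMod n)) = _
      rw [hθ, mul_one]
    rw [h3] at h
    have h4 : (π (1, 0)).1 = (π (1, 0)).1 * θ (π (1, 0)).2 := congrArg Prod.fst h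
    have h5 : θ (π (1, 0)).2 = 1 := by
      have h6 : (π (1, 0)).1 * 1 = (π (1, 0)).1 * θ (π (1, 0)).2 := by rw [mul_one]; exact h4
      exact (mul_left_cancel h6).symm
    exact θ.injective (h5.trans hθ.symm)
  have h1 : ∀ m : ZMod n, π (1, m) = ((π (1, 0)).1, m) := by
    intro m
    have h := hZ m 1 0
    rwa [zero_add, h0, zero_add] at h
  refine ⟨(π (1, 0)).1, ?_⟩
  rintro ⟨g, k⟩
  have h3 : tTwo θ (1, θ.symm g) = (g, θ.symm g) := by
    show ((1 : G) * θ (θ.symm g), θ.symm g) = _
    rw [θ.apply_symm_apply, one_mul]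
  have h4 : π (g, θ.symm g) = ((π (1, 0)).1 * g, θ.symm g) := by
    rw [← h3, h₂, h1]
    show ((π (1, 0)).1 * θ (θ.symm g), θ.symm g) = _
    rw [θ.apply_symm_apply]
  have h5 := hZ (k - θ.symm g) g (θ.symm g)
  rw [h4] at h5
  rw [show θ.symm g + (k - θ.symm g) = k by ring] at h5
  rw [h5]
  rfl

/-- The automorphism of the lattice given by a group element. -/
def Lam (θ : ZMod n ≃ G) (h : G) : L (tOne G n) (tTwo θ) ≃o L (tOne G n) (tTwo θ) :=
  actIso (lam n h) (lam_one_comm h) (lam_two_comm θ h)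

theorem Lam_mul (θ : ZMod n ≃ G) (g h : G) : Lam θ (g * h) = (Lam θ h).trans (Lam θ g) := by
  apply OrderIso.ext
  funext x
  apply Subtype.ext
  show act (lam n (g * h)) x.1 = act (lam n g) (act (lam n h) x.1)
  have h1 : lam n (g * h) = lam n g * lam n h := by
    ext x
    · show g * h * x.1 = g * (h * x.1)
      rw [mul_assoc]
    · rfl
  rw [h1]
  unfold act
  simp [M.map_map]

theorem Lam_bijective [Finite G] [Nontrivial G] [NeZero n] {θ : ZMod n ≃ G} (hθ : θ 0 = 1) :
    Function.Bijective (Lam θ) := by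
  have : Finite (ZMod n) := Finite.of_equiv G θ.symm
  constructor
  · intro g h hgh
    have h1 := congrArg (fun φ => φ (J (tOne G n) (tTwo θ) (Sum.inl (.a, ((1 : G), (0 : ZMod n)))))) hgh
    simp only [Lam, actIso_J] at h1
    have h2 := J_injective h1
    have h3 : lam n g (1, 0) = lam n h (1, 0) := by
      simpa using h2
    have h4 : g * 1 = h * 1 := congrArg Prod.fst h3
    simpa using h4
  · intro φ
    obtain ⟨ψ, hψ⟩ := exists_perm φ
    obtain ⟨π, h₁, h₂, hπ⟩ := exists_label hψ
    obtain ⟨h, hh⟩ := exists_lam hθ h₁ h₂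
    refine ⟨h, ?_⟩
    apply iso_ext
    rintro (⟨t, i⟩ | j)
    · rw [hψ, hπ, hh]
      exact actIso_J _ _ t i
    · rw [hψ, perm_inr hψ]
      exact actIso_inr _ _ j

/-- Every finite group is the automorphism group of a finite modular lattice of order dimension at
most `11`. -/
theorem exists_lattice (G : Type) [Group G] [Finite G] :
    ∃ (L : Type) (_ : Lattice L) (_ : IsModularLattice L) (_ : Finite L),
      Nonempty (L ↪o (Fin 11 → ℕ)) ∧
        ∃ φ : G ≃ (L ≃o L), ∀ a b : G, φ (a * b) = (φ b).trans (φ a) := by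
  rcases subsingleton_or_nontrivial G with hG | hG
  · refine ⟨PUnit, inferInstance, inferInstance, inferInstance, ⟨?_⟩, ?_⟩
    · exact {
        toFun := fun _ _ => 0
        inj' := fun _ _ _ => rfl
        map_rel_iff' := by
          intro a b
          simp }
    · refine ⟨⟨fun _ => OrderIso.refl _, fun _ => 1, fun _ => Subsingleton.elim _ _, fun φ => ?_⟩,
        fun _ _ => rfl⟩
      apply OrderIso.ext
      funext x
      rfl
  · have hn : NeZero (Nat.card G) := ⟨Nat.card_pos.ne'⟩
    have hc : Nat.card (ZMod (Nat.card G)) = Nat.card G := Nat.card_zmod _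
    have : Finite (ZMod (Nat.card G)) := Nat.finite_of_card_ne_zero (by
      rw [hc]
      exact hn.ne)
    obtain ⟨θ₀⟩ : Nonempty (ZMod (Nat.card G) ≃ G) := ⟨(Finite.equivFinOfCardEq hc).trans (Finite.equivFin G).symm⟩
    classical
    let θ : ZMod (Nat.card G) ≃ G := θ₀.trans (Equiv.swap (θ₀ 0) 1)
    have hθ : θ 0 = 1 := by
      show Equiv.swap (θ₀ 0) 1 (θ₀ 0) = 1
      exact Equiv.swap_apply_left _ _
    refine ⟨L (tOne G (Nat.card G)) (tTwo θ), inferInstance, inferInstance, inferInstance,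
      exists_embedding, Equiv.ofBijective (Lam θ) (Lam_bijective hθ), fun a b => ?_⟩
    exact Lam_mul θ a b

end Pool.Agent.MLat
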