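import Pool.Agent.MLat.G

/-!
# Height and linear orders (MP_be50aa_co)

The lattices `L t₁ t₂` have height at most `13`; an order embedding into a product of `k` chains
gives `k` linear orders whose intersection is the given order.
-/

set_option autoImplicit false

namespace Pool.Agent.MLat

open M

/-- The rank of an element of `M Ω`. -/
def M.rk {Ω : Type} : M Ω → ℕ
  | .bot => 0
  | .pt _ => 1
  | .top => 2

theorem M.rk_le {Ω : Type} (x : M Ω) : x.rk ≤ 2 := by
  cases x <;> simp [M.rk]

theorem M.rk_mono {Ω : Type} {x y : M Ω} (h : x ≤ y) : x.rk ≤ y.rk := by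
  rcases x with _ | i | _ <;> rcases y with _ | j | _ <;> simp_all [M.rk]

theorem M.eq_of_rk {Ω : Type} {x y : M Ω} (h : x ≤ y) (hr : x.rk = y.rk) : x = y := by
  rcases x with _ | i | _ <;> rcases y with _ | j | _ <;> simp_all [M.rk]

/-- The rank of an element of the ambient product. -/
def rkX {Ω : Type} (x : X Ω) : ℕ :=
  (x.1 .a).rk + (x.1 .b).rk + (x.1 .c).rk + (x.1 .d).rk + (x.1 .e).rk + (x.2 : ℕ)

theorem rkX_le {Ω : Type} (x : X Ω) : rkX x ≤ 13 := by
  have h1 := (x.1 .a).rk_le
  have h2 := (x.1 .b).rk_le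
  have h3 := (x.1 .c).rk_le
  have h4 := (x.1 .d).rk_le
  have h5 := (x.1 .e).rk_le
  have h6 := x.2.isLt
  unfold rkX
  omega

theorem rkX_inj {Ω : Type} {x y : X Ω} (h : x ≤ y) (hr : rkX x = rkX y) : x = y := by
  have h1 := M.rk_mono (h.1 .a)
  have h2 := M.rk_mono (h.1 .b)
  have h3 := M.rk_mono (h.1 .c)
  have h4 := M.rk_mono (h.1 .d)
  have h5 := M.rk_mono (h.1 .e)
  have h6 : (x.2 : ℕ) ≤ y.2 := h.2
  unfold rkX at hr
  have e1 : x.1 .a = y.1 .a := M.eq_of_rk (h.1 .a) (by omega)
  have e2 : x.1 .b = y.1 .b := M.eq_of_rk (h.1 .b) (by omega)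
  have e3 : x.1 .c = y.1 .c := M.eq_of_rk (h.1 .c) (by omega)
  have e4 : x.1 .d = y.1 .d := M.eq_of_rk (h.1 .d) (by omega)
  have e5 : x.1 .e = y.1 .e := M.eq_of_rk (h.1 .e) (by omega)
  refine Prod.ext (funext fun t => ?_) (Fin.ext (by omega))
  cases t <;> assumption

/-- Chains in `L t₁ t₂` have at most `14` elements. -/
theorem card_chain {Ω : Type} (t₁ t₂ : Equiv.Perm Ω) (c : Finset (L t₁ t₂))
    (hc : IsChain (· ≤ ·) (c : Set (L t₁ t₂))) : c.card ≤ 14 := by
  have h : c.card ≤ (Finset.range 14).card := by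
    refine Finset.card_le_card_of_injOn (fun x => rkX x.1) (fun x _ => ?_) ?_
    · have := rkX_le x.1
      simp only [Finset.coe_range, Set.mem_Iio]
      omega
    · intro x hx y hy hxy
      have hxy' : rkX x.1 = rkX y.1 := hxy
      rcases hc.total hx hy with h1 | h1
      · exact Subtype.ext (rkX_inj h1 hxy')
      · exact (Subtype.ext (rkX_inj h1 hxy'.symm)).symm
  simpa using h

/-- An order embedding into a product of `k` chains gives `k` linear orders. -/
theorem exists_realizer {P : Type} [PartialOrder P] {k : ℕ} (e : P ↪o (Fin k → ℕ)) :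
    ∃ r : Fin k → LinearOrder P, ∀ x y : P, x ≤ y ↔ ∀ i, (r i).le x y := by
  classical
  let f : Fin k → P → ℕ ×ₗ LinearExtension P := fun i x => toLex (e x i, toLinearExtension x)
  have hf : ∀ i, Function.Injective (f i) := by
    intro i x y h
    have h1 : toLinearExtension x = toLinearExtension y := congrArg (fun z => (ofLex z).2) h
    exact h1
  refine ⟨fun i => LinearOrder.lift' (f i) (hf i), fun x y => ?_⟩
  have key : ∀ i, (LinearOrder.lift' (f i) (hf i)).le x y ↔ f i x ≤ f i y := fun i => Iff.rfl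
  constructor
  · intro h i
    rw [key]
    show toLex (e x i, toLinearExtension x) ≤ toLex (e y i, toLinearExtension y)
    rw [Prod.Lex.toLex_le_toLex]
    rcases lt_or_eq_of_le ((e.le_iff_le.2 h) i) with h1 | h1
    · exact Or.inl h1
    · exact Or.inr ⟨h1, toLinearExtension.monotone h⟩
  · intro h
    rw [← e.le_iff_le]
    intro i
    have h1 := h i
    rw [key] at h1
    have h2 : toLex (e x i, toLinearExtension x) ≤ toLex (e y i, toLinearExtension y) := h1
    rw [Prod.Lex.toLex_le_toLex] at h2
    rcases h2 with h3 | h3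
    · exact h3.le
    · exact h3.1.le

/-- Every finite group is the automorphism group of a finite modular lattice of order dimension at
most `11` and height at most `13`. -/
theorem exists_lattice_height (G : Type) [Group G] [Finite G] :
    ∃ (L : Type) (_ : Lattice L) (_ : IsModularLattice L) (_ : Finite L),
      Nonempty (L ↪o (Fin 11 → ℕ)) ∧
      (∀ c : Finset L, IsChain (· ≤ ·) (c : Set L) → c.card ≤ 14) ∧
        ∃ φ : G ≃ (L ≃o L), ∀ a b : G, φ (a * b) = (φ b).trans (φ a) := by
  rcases subsingleton_or_nontrivial G with hG | hG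
  · refine ⟨PUnit, inferInstance, inferInstance, inferInstance, ⟨?_⟩, ?_, ?_⟩
    · exact {
        toFun := fun _ _ => 0
        inj' := fun _ _ _ => rfl
        map_rel_iff' := by
          intro a b
          simp }
    · intro c _
      have h := Finset.card_le_one_of_subsingleton c
      omega
    · refine ⟨⟨fun _ => OrderIso.refl _, fun _ => 1, fun _ => Subsingleton.elim _ _, fun φ => ?_⟩,
        fun _ _ => rfl⟩
      apply OrderIso.ext
      funext x
      rfl
  · have hn : NeZero (Nat.card G) := ⟨Nat.card_pos.ne'⟩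
    have hc : Nat.card (ZMod (Nat.card G)) = Nat.card G := Nat.card_zmod _
    have : Finite (ZMod (Nat.card G)) := Nat.finite_of_card_ne_zero (by
      rw [hc]
      exact hn.ne)
    obtain ⟨θ₀⟩ : Nonempty (ZMod (Nat.card G) ≃ G) :=
      ⟨(Finite.equivFinOfCardEq hc).trans (Finite.equivFin G).symm⟩
    classical
    let θ : ZMod (Nat.card G) ≃ G := θ₀.trans (Equiv.swap (θ₀ 0) 1)
    have hθ : θ 0 = 1 := by
      show Equiv.swap (θ₀ 0) 1 (θ₀ 0) = 1
      exact Equiv.swap_apply_left _ _
    refine ⟨L (tOne G (Nat.card G)) (tTwo θ), inferInstance, inferInstance, inferInstance,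
      exists_embedding, card_chain _ _, Equiv.ofBijective (Lam θ) (Lam_bijective hθ),
      fun a b => ?_⟩
    exact Lam_mul θ a b

end Pool.Agent.MLat
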