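import Pool.Agent.MLat.M

/-!
# A modular lattice with prescribed holonomy (MP_be50aa_co)

`L t₁ t₂` is the sublattice of the `(x, s)` in `(M Ω) ^ 5 × {0, 1, 2, 3}` with `x c ≤ x a`,
`x c ≤ x b`, `x d ≤ x a`, `x d ≤ t₁ (x b)`, `x e ≤ x a`, `x e ≤ t₂ (x b)`, and `s ≥ 1, 2, 3` if
`x b`, `x d`, `x e` is not the least element. It is modular and of order dimension at most `11`. The
join irreducible elements are determined.
-/

set_option autoImplicit false

namespace Pool.Agent.MLat

open M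

/-- The five classes of labelled join irreducible elements. -/
inductive Cls : Type where
  | a | b | c | d | e
  deriving DecidableEq, Fintype

/-- The ambient product. -/
abbrev X (Ω : Type) : Type := (Cls → M Ω) × Fin 4

variable {Ω : Type}

/-- The conditions. -/
structure Good (t₁ t₂ : Equiv.Perm Ω) (x : X Ω) : Prop where
  ca : x.1 .c ≤ x.1 .a
  cb : x.1 .c ≤ x.1 .b
  da : x.1 .d ≤ x.1 .a
  db : x.1 .d ≤ map t₁ (x.1 .b)
  ea : x.1 .e ≤ x.1 .a
  eb : x.1 .e ≤ map t₂ (x.1 .b)
  sb : x.1 .b = bot ∨ 1 ≤ x.2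
  sd : x.1 .d = bot ∨ 2 ≤ x.2
  se : x.1 .e = bot ∨ 3 ≤ x.2

private theorem sup_or {u v : M Ω} {j r s : Fin 4} (h1 : u = bot ∨ j ≤ r) (h2 : v = bot ∨ j ≤ s) :
    u ⊔ v = bot ∨ j ≤ r ⊔ s := by
  rcases h1 with h1 | h1
  · rcases h2 with h2 | h2
    · left
      rw [h1, h2]
      simp
    · exact Or.inr (h2.trans le_sup_right)
  · exact Or.inr (h1.trans le_sup_left)

private theorem inf_or {u v : M Ω} {j r s : Fin 4} (h1 : u = bot ∨ j ≤ r) (h2 : v = bot ∨ j ≤ s) :
    u ⊓ v = bot ∨ j ≤ r ⊓ s := by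
  rcases h1 with h1 | h1
  · left
    rw [h1]
    exact le_antisymm inf_le_left (bot_le _)
  · rcases h2 with h2 | h2
    · left
      rw [h2]
      exact le_antisymm inf_le_right (bot_le _)
    · exact Or.inr (le_inf h1 h2)

/-- The sublattice of the elements which satisfy the conditions. -/
def L (t₁ t₂ : Equiv.Perm Ω) : Sublattice (X Ω) where
  carrier := {x | Good t₁ t₂ x}
  supClosed' := by
    intro x hx y hy
    exact {
      ca := sup_le_sup hx.ca hy.ca
      cb := sup_le_sup hx.cb hy.cb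
      da := sup_le_sup hx.da hy.da
      db := by
        show x.1 .d ⊔ y.1 .d ≤ map t₁ (x.1 .b ⊔ y.1 .b)
        rw [map_sup']
        exact sup_le_sup hx.db hy.db
      ea := sup_le_sup hx.ea hy.ea
      eb := by
        show x.1 .e ⊔ y.1 .e ≤ map t₂ (x.1 .b ⊔ y.1 .b)
        rw [map_sup']
        exact sup_le_sup hx.eb hy.eb
      sb := sup_or hx.sb hy.sb
      sd := sup_or hx.sd hy.sd
      se := sup_or hx.se hy.se }
  infClosed' := by
    intro x hx y hy
    exact {
      ca := inf_le_inf hx.ca hy.ca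
      cb := inf_le_inf hx.cb hy.cb
      da := inf_le_inf hx.da hy.da
      db := by
        show x.1 .d ⊓ y.1 .d ≤ map t₁ (x.1 .b ⊓ y.1 .b)
        rw [map_inf']
        exact inf_le_inf hx.db hy.db
      ea := inf_le_inf hx.ea hy.ea
      eb := by
        show x.1 .e ⊓ y.1 .e ≤ map t₂ (x.1 .b ⊓ y.1 .b)
        rw [map_inf']
        exact inf_le_inf hx.eb hy.eb
      sb := inf_or hx.sb hy.sb
      sd := inf_or hx.sd hy.sd
      se := inf_or hx.se hy.se }

theorem mem_L {t₁ t₂ : Equiv.Perm Ω} {x : X Ω} : x ∈ L t₁ t₂ ↔ Good t₁ t₂ x := Iff.rfl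

variable {t₁ t₂ : Equiv.Perm Ω}

instance : IsModularLattice (L t₁ t₂) where
  sup_inf_le_assoc_of_le {x} y {z} h := by
    have h1 : ∀ k, x.1.1 k ≤ z.1.1 k := fun k => h.1 k
    have h2 : x.1.2 ≤ z.1.2 := h.2
    show ((x.1 ⊔ y.1) ⊓ z.1 : X Ω) ≤ x.1 ⊔ y.1 ⊓ z.1
    refine ⟨fun k => ?_, ?_⟩
    · exact sup_inf_le_assoc_of_le _ (h1 k)
    · exact sup_inf_le_assoc_of_le _ h2

instance [Finite Ω] : Finite (L t₁ t₂) := by
  have : Finite (X Ω) := inferInstance
  exact Subtype.finite

instance : OrderBot (L t₁ t₂) where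
  bot := ⟨(fun _ => bot, 0), by
    constructor <;> simp⟩
  bot_le x := by
    show (((fun _ => bot, 0) : X Ω)) ≤ x.1
    exact ⟨fun k => bot_le _, Fin.zero_le _⟩

/-- The order dimension is at most `11`. -/
theorem exists_embedding [Finite Ω] : Nonempty (L t₁ t₂ ↪o (Fin 11 → ℕ)) := by
  obtain ⟨n, ⟨ε⟩⟩ := Finite.exists_equiv_fin Ω
  have hc : Fintype.card ((Cls × Bool) ⊕ Unit) = 11 := rfl
  let f := Fintype.equivFinOfCardEq hc
  let g : L t₁ t₂ → (Fin 11 → ℕ) := fun x k => match f.symm k with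
    | Sum.inl (t, c) => gg ε (x.1.1 t) c
    | Sum.inr _ => (x.1.2 : ℕ)
  have hg : ∀ x y : L t₁ t₂, g x ≤ g y ↔ x ≤ y := by
    intro x y
    have h1 : g x ≤ g y ↔ ∀ k, g x (f k) ≤ g y (f k) :=
      ⟨fun h k => h (f k), fun h k => by
        have := h (f.symm k)
        rwa [f.apply_symm_apply] at this⟩
    rw [h1]
    constructor
    · intro h
      refine ⟨fun t => (gg_le ε _ _).1 fun c => ?_, ?_⟩
      · have h2 := h (Sum.inl (t, c))
        simpa only [g, f.symm_apply_apply] using h2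
      · have h2 := h (Sum.inr ())
        simp only [g, f.symm_apply_apply] at h2
        exact h2
    · rintro h (⟨t, c⟩ | ⟨⟩)
      · simp only [g, f.symm_apply_apply]
        exact (gg_le ε _ _).2 (h.1 t) c
      · simp only [g, f.symm_apply_apply]
        exact h.2
  exact ⟨OrderEmbedding.ofMapLEIff g hg⟩

/-! ### The join irreducible elements -/

/-- The names of the join irreducible elements. -/
abbrev E (Ω : Type) : Type := (Cls × Ω) ⊕ Fin 3

/-- The join irreducible elements in the ambient product. -/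
def Jx (t₁ t₂ : Equiv.Perm Ω) : E Ω → X Ω
  | Sum.inl (.a, i) => (fun | .a => pt i | .b => bot | .c => bot | .d => bot | .e => bot, 0)
  | Sum.inl (.b, i) => (fun | .a => bot | .b => pt i | .c => bot | .d => bot | .e => bot, 1)
  | Sum.inl (.c, i) => (fun | .a => pt i | .b => pt i | .c => pt i | .d => bot | .e => bot, 1)
  | Sum.inl (.d, i) =>
    (fun | .a => pt i | .b => pt (t₁.symm i) | .c => bot | .d => pt i | .e => bot, 2)
  | Sum.inl (.e, i) =>
    (fun | .a => pt i | .b => pt (t₂.symm i) | .c => bot | .d => bot | .e => pt i, 3)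
  | Sum.inr j => (fun _ => bot, j.succ)

theorem Jx_good (e : E Ω) : Good t₁ t₂ (Jx t₁ t₂ e) := by
  rcases e with ⟨t, i⟩ | j
  · cases t <;> constructor <;> simp [Jx, pt_le_map]
  · constructor <;> simp [Jx]

/-- The join irreducible elements. -/
def J (t₁ t₂ : Equiv.Perm Ω) (e : E Ω) : L t₁ t₂ := ⟨Jx t₁ t₂ e, Jx_good e⟩

/-- `e` belongs to the element `x`. -/
def has (x : X Ω) : E Ω → Prop
  | Sum.inl (t, i) => pt i ≤ x.1 t
  | Sum.inr j => j.succ ≤ x.2

/-- `J e` is the least element of `L` to which `e` belongs. -/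
theorem J_le {e : E Ω} {x : L t₁ t₂} : J t₁ t₂ e ≤ x ↔ has x.1 e := by
  show Jx t₁ t₂ e ≤ x.1 ↔ _
  have hx : Good t₁ t₂ x.1 := x.2
  have hb : ∀ i, pt i ≤ x.1.1 .b → 1 ≤ x.1.2 := by
    intro i h
    refine hx.sb.resolve_left fun h1 => ?_
    rw [h1] at h
    exact pt_le_bot i h
  have hd : ∀ i, pt i ≤ x.1.1 .d → 2 ≤ x.1.2 := by
    intro i h
    refine hx.sd.resolve_left fun h1 => ?_
    rw [h1] at h
    exact pt_le_bot i h
  have he : ∀ i, pt i ≤ x.1.1 .e → 3 ≤ x.1.2 := by
    intro i h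
    refine hx.se.resolve_left fun h1 => ?_
    rw [h1] at h
    exact pt_le_bot i h
  rcases e with ⟨t, i⟩ | j
  · constructor
    · intro h
      have h1 := h.1 t
      cases t <;> exact h1
    · intro h
      have h0 : pt i ≤ x.1.1 t := h
      cases t
      · refine ⟨?_, Fin.zero_le _⟩
        intro t
        cases t <;> simp [Jx, h0]
      · refine ⟨?_, hb i h0⟩
        intro t
        cases t <;> simp [Jx, h0]
      · refine ⟨?_, hb i (h0.trans hx.cb)⟩
        intro t
        cases t <;> simp [Jx, h0, h0.trans hx.cb, h0.trans hx.ca]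
      · refine ⟨?_, hd i h0⟩
        have h1 := pt_le_map.1 (h0.trans hx.db)
        intro t
        cases t <;> simp [Jx, h0, h1, h0.trans hx.da]
      · refine ⟨?_, he i h0⟩
        have h1 := pt_le_map.1 (h0.trans hx.eb)
        intro t
        cases t <;> simp [Jx, h0, h1, h0.trans hx.ea]
  · constructor
    · intro h
      exact h.2
    · intro h
      exact ⟨fun t => bot_le _, h⟩

theorem has_J_self (e : E Ω) : has (Jx t₁ t₂ e) e := (J_le (x := J t₁ t₂ e)).1 le_rfl

/-- An element of `L` is determined by the `J e` below it. -/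
theorem le_of_J [Nontrivial Ω] {x y : L t₁ t₂} (h : ∀ e, J t₁ t₂ e ≤ x → J t₁ t₂ e ≤ y) :
    x ≤ y := by
  have h1 : ∀ e, has x.1 e → has y.1 e := fun e he => J_le.1 (h e (J_le.2 he))
  refine ⟨fun t => le_of_pt fun i hi => h1 (Sum.inl (t, i)) hi, ?_⟩
  have h2 : ∀ j : Fin 3, j.succ ≤ x.1.2 → j.succ ≤ y.1.2 := fun j hj => h1 (Sum.inr j) hj
  rcases Fin.eq_zero_or_eq_succ x.1.2 with h3 | ⟨j, h3⟩
  · rw [h3]
    exact Fin.zero_le _
  · have h4 := h2 j h3.ge
    rwa [← h3] at h4

theorem J_injective : Function.Injective (J t₁ t₂) := by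
  intro e e' h
  have h1 : has (Jx t₁ t₂ e') e := J_le.1 h.le
  have h2 : has (Jx t₁ t₂ e) e' := J_le.1 h.ge
  rcases e with ⟨t, i⟩ | j <;> rcases e' with ⟨t', i'⟩ | j'
  · cases t <;> cases t' <;> simp_all [has, Jx]
  · exact absurd h1 (pt_le_bot i)
  · exact absurd h2 (pt_le_bot i')
  · have h3 : j.succ ≤ j'.succ := h1
    have h4 : j'.succ ≤ j.succ := h2
    rw [Fin.succ_injective 3 (le_antisymm h3 h4)]

/-- The elements `J e` are join irreducible. -/
theorem supIrred_J (e : E Ω) : SupIrred (J t₁ t₂ e) := by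
  constructor
  · intro h
    have h1 : J t₁ t₂ e ≤ ⊥ := h (_root_.bot_le)
    rw [J_le] at h1
    rcases e with ⟨t, i⟩ | j
    · exact pt_le_bot i h1
    · have h2 : j.succ ≤ 0 := h1
      simp at h2
  · intro x y h
    have key : J t₁ t₂ e ≤ x ∨ J t₁ t₂ e ≤ y := by
      rw [J_le, J_le]
      have h1 : x.1 ⊔ y.1 = Jx t₁ t₂ e := congrArg Subtype.val h
      rcases e with ⟨t, i⟩ | j
      · have h2 := congrFun (congrArg Prod.fst h1) t
        have h3 : x.1.1 t ⊔ y.1.1 t = pt i := by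
          rw [show x.1.1 t ⊔ y.1.1 t = (x.1 ⊔ y.1).1 t from rfl, h2]
          cases t <;> rfl
        exact pt_le_of_sup h3
      · have h2 := congrArg Prod.snd h1
        have h3 : x.1.2 ⊔ y.1.2 = j.succ := h2
        rcases le_total x.1.2 y.1.2 with h4 | h4
        · right
          rw [sup_eq_right.2 h4] at h3
          exact h3.ge
        · left
          rw [sup_eq_left.2 h4] at h3
          exact h3.ge
    rcases key with h1 | h1
    · left
      exact le_antisymm (h ▸ le_sup_left) h1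
    · right
      exact le_antisymm (h ▸ le_sup_right) h1

/-- There are no other join irreducible elements. -/
theorem exists_J [Finite Ω] [Nontrivial Ω] {x : L t₁ t₂} (hx : SupIrred x) :
    ∃ e, J t₁ t₂ e = x := by
  classical
  have : Fintype Ω := Fintype.ofFinite Ω
  have h : (Finset.univ.filter fun e => J t₁ t₂ e ≤ x).sup (J t₁ t₂) = x := by
    refine le_antisymm (Finset.sup_le fun e he => (Finset.mem_filter.1 he).2) ?_
    refine le_of_J fun e he => ?_
    exact Finset.le_sup (f := J t₁ t₂) (Finset.mem_filter.2 ⟨Finset.mem_univ e, he⟩)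
  obtain ⟨e, -, he⟩ := hx.finset_sup_eq h
  exact ⟨e, he⟩

end Pool.Agent.MLat
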