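import Mathlib

/-!
# The modular lattices of height two (MP_be50aa_co)

`M Ω` is the lattice with the least element `bot`, the greatest element `top`, and the pairwise
incomparable elements `pt i`. It is modular and of order dimension at most two, and every
permutation of `Ω` acts on it.
-/

set_option autoImplicit false

namespace Pool.Agent.MLat

/-- The lattice of height two with the atoms `Ω`. -/
inductive M (Ω : Type) : Type where
  | bot : M Ω
  | pt (i : Ω) : M Ω
  | top : M Ω

namespace M

variable {Ω : Type}

/-- The order. -/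
protected def le : M Ω → M Ω → Prop
  | bot, _ => True
  | pt _, bot => False
  | pt i, pt j => i = j
  | pt _, top => True
  | top, bot => False
  | top, pt _ => False
  | top, top => True

instance : PartialOrder (M Ω) where
  le := M.le
  le_refl x := by cases x <;> simp [M.le]
  le_trans x y z h1 h2 := by cases x <;> cases y <;> cases z <;> simp_all [M.le]
  le_antisymm x y h1 h2 := by cases x <;> cases y <;> simp_all [M.le]

@[simp] theorem bot_le (x : M Ω) : bot ≤ x := by
  show M.le _ _
  cases x <;> trivial

@[simp] theorem le_top (x : M Ω) : x ≤ top := by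
  show M.le _ _
  cases x <;> trivial

@[simp] theorem pt_le_bot (i : Ω) : ¬ pt i ≤ bot := fun h => h

@[simp] theorem top_le_bot : ¬ (top : M Ω) ≤ bot := fun h => h

@[simp] theorem top_le_pt (i : Ω) : ¬ top ≤ pt i := fun h => h

@[simp] theorem pt_le_pt (i j : Ω) : pt i ≤ pt j ↔ i = j := Iff.rfl

open Classical in
/-- The join. -/
protected noncomputable def sup : M Ω → M Ω → M Ω
  | bot, y => y
  | pt i, bot => pt i
  | pt i, pt j => if i = j then pt i else top
  | pt _, top => top
  | top, _ => top

open Classical in
/-- The meet. -/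
protected noncomputable def inf : M Ω → M Ω → M Ω
  | bot, _ => bot
  | pt _, bot => bot
  | pt i, pt j => if i = j then pt i else bot
  | pt i, top => pt i
  | top, y => y

noncomputable instance : Lattice (M Ω) where
  sup := M.sup
  inf := M.inf
  le_sup_left x y := by
    show x ≤ M.sup x y
    cases x <;> cases y <;> simp [M.sup]
    split_ifs <;> simp
  le_sup_right x y := by
    show y ≤ M.sup x y
    cases x <;> cases y <;> simp [M.sup]
    split_ifs with h <;> simp [h]
  sup_le x y z h1 h2 := by
    show M.sup x y ≤ z
    cases x <;> cases y <;> cases z <;> simp_all [M.sup]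
  inf_le_left x y := by
    show M.inf x y ≤ x
    cases x <;> cases y <;> simp [M.inf]
    split_ifs <;> simp
  inf_le_right x y := by
    show M.inf x y ≤ y
    cases x <;> cases y <;> simp [M.inf]
    split_ifs with h <;> simp [h]
  le_inf x y z h1 h2 := by
    show x ≤ M.inf y z
    cases x <;> cases y <;> cases z <;> simp_all [M.inf]

theorem sup_pt_pt (i j : Ω) [Decidable (i = j)] :
    (pt i ⊔ pt j : M Ω) = if i = j then pt i else top := by
  show M.sup _ _ = _
  by_cases h : i = j
  · simp [M.sup, h]
  · simp [M.sup, h]

@[simp] theorem sup_bot' (x : M Ω) : x ⊔ bot = x := by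
  cases x <;> rfl

@[simp] theorem bot_sup' (x : M Ω) : bot ⊔ x = x := by
  cases x <;> rfl

@[simp] theorem sup_top' (x : M Ω) : x ⊔ top = top := by
  cases x <;> rfl

@[simp] theorem top_sup' (x : M Ω) : top ⊔ x = top := by
  cases x <;> rfl

instance : IsModularLattice (M Ω) where
  sup_inf_le_assoc_of_le {x} y {z} h := by
    classical
    rcases x with _ | i | _
    · simp
    · rcases z with _ | k | _
      · exact absurd h (pt_le_bot i)
      · obtain rfl := (pt_le_pt i k).1 h
        exact inf_le_right.trans le_sup_left
      · have h1 : ∀ w : M Ω, w ⊓ top = w := fun w => inf_eq_left.2 (le_top w)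
        rw [h1, h1]
    · rcases z with _ | k | _
      · exact absurd h top_le_bot
      · exact absurd h (top_le_pt k)
      · simp

/-- The only elements with the join `pt i` are `bot` and `pt i`. -/
theorem pt_le_of_sup {i : Ω} {x y : M Ω} (h : x ⊔ y = pt i) : pt i ≤ x ∨ pt i ≤ y := by
  classical
  rcases x with _ | j | _
  · right
    rw [← h]
    simp
  · rcases y with _ | k | _
    · left
      rw [← h]
      simp
    · rw [sup_pt_pt] at h
      split_ifs at h with hjk
      left
      rw [h]
    · simp at h
  · simp at h

/-- An element is determined by the atoms below it. -/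
theorem le_of_pt [Nontrivial Ω] {x y : M Ω} (h : ∀ i, pt i ≤ x → pt i ≤ y) : x ≤ y := by
  rcases x with _ | i | _
  · simp
  · exact h i le_rfl
  · rcases y with _ | j | _
    · obtain ⟨i, -⟩ := exists_pair_ne Ω
      exact absurd (h i (le_top _)) (pt_le_bot i)
    · obtain ⟨i, hi⟩ := exists_ne j
      exact absurd ((pt_le_pt i j).1 (h i (le_top _))) hi
    · exact le_rfl

/-- The automorphism belonging to a permutation of the atoms. -/
def map (σ : Equiv.Perm Ω) : M Ω → M Ω
  | bot => bot
  | pt i => pt (σ i)
  | top => top

@[simp] theorem map_bot' (σ : Equiv.Perm Ω) : map σ bot = bot := rfl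

@[simp] theorem map_pt (σ : Equiv.Perm Ω) (i : Ω) : map σ (pt i) = pt (σ i) := rfl

@[simp] theorem map_top' (σ : Equiv.Perm Ω) : map σ top = top := rfl

theorem map_map (σ τ : Equiv.Perm Ω) (x : M Ω) : map σ (map τ x) = map (σ * τ) x := by
  cases x <;> rfl

theorem map_one (x : M Ω) : map 1 x = x := by
  cases x <;> rfl

/-- The automorphism belonging to a permutation of the atoms. -/
def mapIso (σ : Equiv.Perm Ω) : M Ω ≃o M Ω where
  toFun := map σ
  invFun := map σ⁻¹
  left_inv x := by
    rw [map_map, inv_mul_cancel, map_one]
  right_inv x := by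
    rw [map_map, mul_inv_cancel, map_one]
  map_rel_iff' {x y} := by
    show map σ x ≤ map σ y ↔ x ≤ y
    rcases x with _ | i | _ <;> rcases y with _ | j | _ <;> simp

@[simp] theorem mapIso_apply (σ : Equiv.Perm Ω) (x : M Ω) : mapIso σ x = map σ x := rfl

theorem map_sup' (σ : Equiv.Perm Ω) (x y : M Ω) : map σ (x ⊔ y) = map σ x ⊔ map σ y :=
  (mapIso σ).map_sup x y

theorem map_inf' (σ : Equiv.Perm Ω) (x y : M Ω) : map σ (x ⊓ y) = map σ x ⊓ map σ y :=
  (mapIso σ).map_inf x y

theorem map_le_map {σ : Equiv.Perm Ω} {x y : M Ω} : map σ x ≤ map σ y ↔ x ≤ y :=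
  (mapIso σ).le_iff_le

theorem pt_le_map {σ : Equiv.Perm Ω} {i : Ω} {x : M Ω} : pt i ≤ map σ x ↔ pt (σ.symm i) ≤ x := by
  rcases x with _ | j | _
  · simp
  · simp [Equiv.symm_apply_eq]
  · simp

/-- The two coordinates of the order embedding into a product of two chains. -/
def gg {n : ℕ} (ε : Ω ≃ Fin n) : M Ω → Bool → ℕ
  | bot, _ => 0
  | pt i, true => (ε i : ℕ) + 1
  | pt i, false => n - (ε i : ℕ)
  | top, _ => n + 1

theorem gg_le {n : ℕ} (ε : Ω ≃ Fin n) (x y : M Ω) : (∀ c, gg ε x c ≤ gg ε y c) ↔ x ≤ y := by
  rw [Bool.forall_bool]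
  rcases x with _ | i | _
  · simp [gg]
  · have hi := (ε i).isLt
    rcases y with _ | j | _
    · simp only [gg, pt_le_bot, iff_false]
      omega
    · have hj := (ε j).isLt
      simp only [gg, pt_le_pt]
      rw [← ε.injective.eq_iff, Fin.ext_iff]
      omega
    · simp only [gg, le_top, iff_true]
      omega
  · rcases y with _ | j | _
    · simp [gg]
    · have hj := (ε j).isLt
      simp only [gg, top_le_pt, iff_false]
      omega
    · simp [gg]

instance [Finite Ω] : Finite (M Ω) := by
  have h : Function.Injective (fun x : M Ω => (match x with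
    | bot => none
    | pt i => some (some i)
    | top => some none : Option (Option Ω))) := by
    intro x y hxy
    rcases x with _ | i | _ <;> rcases y with _ | j | _ <;> simp_all
  exact Finite.of_injective _ h

end M

end Pool.Agent.MLat
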